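import Pool.Agent.Lib_helper62.PZR.Main

/-!
# MP_ef641d_nt: zeros of the Hecke eigenvalues of cusp forms on `GL_n`

Let `n = m + 1 ≥ 2` and let `φ` be a cuspidal Hecke eigenform on `GL_n(ℝ)` of level `N` whose Satake
polynomials `P p` (`p` prime, `p ∤ N`) have coefficients in the integers of a number field `K`, which is
generated by the Hecke eigenvalues `-(P p).coeff m` (traces of Frobenius, if there is a Galois
representation).

(1) `K` imaginary quadratic of discriminant `D < -4`. One form `φ`, reproduced by a real kernel, with the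
same Whittaker coefficients as its complex conjugate for the characters whose prime factors divide `N`
(a choice of the vector in the representation): the primes with eigenvalue `0` have lower Dirichlet
density at least `1/2 - 2/|D|`.

(2) Any `K`, and forms `φ τ`, `τ : K → ℂ`, with the Satake polynomials `τ (P p)`; if `τ` and `τ'` agree on
the field `F₀` generated by the roots of unity in `K`, then `φ τ` and `φ τ'` have the same kernel and the
same Whittaker coefficients for the characters whose prime factors divide `N`. Then the zeros have lower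
density at least `(1 - c) (1 - 1 / [K : F₀])`, which is at least `1/5` for `K ≠ F₀` and `c = 3/5`; the
nonzero eigenvalues in a field `F`, `F₀ ≤ F ≤ K`, have upper density at most
`c / [K : F] + (1 - c) / [K : F₀]`. Here `c = 3/5`, or `0 ≤ c ≤ 1` is such that `c` times the mean of
`|τ a|²` plus `1 - c` times the mean of `|τ (Tr a / [K : F₀])|²` is at least `1` for all integers `a` of
`K` outside `F₀`.

If a Galois representation of finite image exists, as predicted, these are statements on the values of an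
irreducible character of a finite group. No Galois representation is used.
-/

set_option autoImplicit false

namespace Pool.Agent.Results.MP_ef641d_nt.PositiveZeros

open NumberField Pool.Agent.PZR

theorem result (m : ℕ) (hm : 1 ≤ m) (K : Type) [Field K] [NumberField K] (N : ℕ) (hN : 2 ≤ N)
    (P : ℕ → Polynomial (𝓞 K))
    (hP : IntermediateField.adjoin ℚ {y : K | ∃ p : ℕ, p.Prime ∧ ¬ p ∣ N ∧ y = (P p).coeff m} = ⊤)
    (χ : DirichletCharacter K N) :
    (Module.finrank ℚ K = 2 → discr K < -4 →
      ∀ (τ : K →+* ℂ) (k φ : Matrix (Fin (m + 1)) (Fin (m + 1)) ℝ → ℂ),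
      Eigenform m N (χ.ringHomComp τ) k φ (fun p => (P p).map (τ.comp (algebraMap (𝓞 K) K))) →
      (∀ g, (k g).im = 0) →
      (∀ M ∈ MN m N, ∀ g : Matrix (Fin (m + 1)) (Fin (m + 1)) ℝ, 0 < g.det →
        whit φ M g = whit (fun g => starRingEnd ℂ (φ g)) M g) →
      AtLeast {p | ¬ p ∣ N ∧ (P p).coeff m = 0} (1 / 2 - 2 / |(discr K : ℝ)|)) ∧
    ∀ F₀ : IntermediateField ℚ K,
      F₀ = IntermediateField.adjoin ℚ {x : K | ∃ n : ℕ, 0 < n ∧ x ^ n = 1} →
      ∀ k φ : (K →+* ℂ) → Matrix (Fin (m + 1)) (Fin (m + 1)) ℝ → ℂ,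
      (∀ τ : K →+* ℂ, Eigenform m N (χ.ringHomComp τ) (k τ) (φ τ) fun p =>
        (P p).map (τ.comp (algebraMap (𝓞 K) K))) →
      (∀ τ τ' : K →+* ℂ, (∀ x ∈ F₀, τ x = τ' x) → k τ = k τ' ∧
        ∀ M ∈ MN m N, ∀ g : Matrix (Fin (m + 1)) (Fin (m + 1)) ℝ, 0 < g.det →
          whit (φ τ) M g = whit (φ τ') M g) →
      ∀ c : ℝ, 0 ≤ c → c ≤ 1 →
      (c = 3 / 5 ∨ ∀ a : 𝓞 K, (a : K) ∉ F₀ → 1 ≤ c * mean (a : K) +
        (1 - c) * mean ((Algebra.trace F₀ K (a : K) : K) / (Module.finrank F₀ K : K))) →
      AtLeast {p | ¬ p ∣ N ∧ (P p).coeff m = 0} ((1 - c) * (1 - 1 / (Module.finrank F₀ K : ℝ))) ∧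
      ∀ F : IntermediateField ℚ K, F₀ ≤ F →
        AtMost {p | ¬ p ∣ N ∧ (P p).coeff m ≠ 0 ∧ ((P p).coeff m : K) ∈ F}
          (c / (Module.finrank F K : ℝ) + (1 - c) / (Module.finrank F₀ K : ℝ)) :=
  main m hm K N hN P hP χ

end Pool.Agent.Results.MP_ef641d_nt.PositiveZeros
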