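import Pool.Agent.Lib_helper42.MAQ.F.MA

/-!
# MP_ef641d_nt: the number of algebraic Maass forms of Laplace eigenvalue 1/4

The non-regular algebraic cuspidal representations of `GL₂` over `ℚ` which are not of weight one
type correspond to the Hecke-Maass newforms of Laplace eigenvalue `1/4`.  If the Hecke eigenvalues
of such a form are algebraic integers and its conjugates are again Maass forms, then, without any
use of Galois representations, the number of such forms of level `N` and given nebentypus, and the
degree of the Hecke field over the field of the nebentypus, are `≪ N^(11/12+ε)`.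
-/

set_option autoImplicit false

namespace Pool.Agent.Lib_helper62.Superseded.QuarterMaassForms

open Pool.Agent.MAQ

theorem result (ε : ℝ) (hε : 0 < ε) : ∃ C : ℝ, ∀ (N : ℕ), N ≠ 0 →
    ∀ (ι : AlgebraicClosure ℚ →+* ℂ) (F : Finset (ℕ → AlgebraicClosure ℚ)),
    GaloisStable N ι F →
    ∀ (χ : DirichletCharacter ℂ N) (G : Finset (ℕ → AlgebraicClosure ℚ)), G ⊆ F →
    (∀ b ∈ G, Attached N χ ι b) → (G.card : ℝ) ≤ C * (N : ℝ) ^ (11 / 12 + ε) :=
  main ε hε

end Pool.Agent.Lib_helper62.Superseded.QuarterMaassForms

/-! Claim file of the hand-in (out of `Results/` since 3 Dec 2026, when `PositiveZeros` took its slot):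

Proves: For every eps>0 there is C such that for all N>=1: if F is a finite set of systems b(n), n prime to N, of Hecke eigenvalues of eigenforms (IsEigenform: level N, Laplace eigenvalue 1/4, any nebentypus, even or odd), all b(n) are algebraic integers and F contains all conjugates s(b), s in Gal(Qbar/Q), of its members b, then for every character chi mod N at most C N^(11/12+eps) members of F belong to chi.
Definitions: GaloisStable: F as above. Attached: lam(n)=iota(b(n)) for n prime to N, iota: Qbar->C, lam an IsEigenform of nebentypus chi: lam(0)=0, lam(1)=1, lam(m)lam(n)=sum over d|(m,n) of chi(d)lam(mn/d^2), and sum over n/=0 of s^[n<0]lam(|n|)sqrt(y)K0(2pi|n|y)e(nx), s=1 or -1, is IsMaass: continuous, f(gz)=chi(d)f(z) for g in Gamma_0(N), and f(gz), any g in SL2(Z), is a series in sqrt(y)K0(2pi|n|y/N)e(nx/N), n/=0. K0(u): integral of exp(-u cosh t), t>0.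
Relation: Partial, n=2, pi algebraic, not regular, not of weight one type: if pi has integral Hecke eigenvalues and automorphic conjugates (expected), their new vectors give an F. So the number of such pi of conductor N and central character chi, and the degree [Q(pi):Q(chi)] of the Hecke field, are << N^(11/12+eps) (trivial: N^(1+eps)), without Galois representations. Known for pi of Galois type only, where Q1 holds: Duke (weight one, 11/12), Michel-Venkatesh (6/7), Ellenberg, Bhargava-Ghate. Near: Sarnak, Brumley (coefficients in Z or quadratic).
-/
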